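import Pool.Agent.Y499.HC.Stm

/-!
# HC-AVG: average over the orthonormal frames of the length of a vector in the plane of the first two
vectors of the frame
-/

set_option autoImplicit false

open Real Set MeasureTheory Metric
open scoped ENNReal

namespace Pool.Agent.Y249.HC

open Pool.Agent.Y499.HC

/-! ## orthogonal matrices -/

/-- the matrix with the columns `e j` -/
theorem mat_mem {d : ℕ} (M : Matrix (Fin (d + 1)) (Fin (d + 1)) ℝ)
    (h : ∀ j k, ∑ i, M i j * M i k = if j = k then 1 else 0) :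
    M ∈ Matrix.orthogonalGroup (Fin (d + 1)) ℝ := by
  rw [Matrix.mem_orthogonalGroup_iff']
  ext j k
  rw [Matrix.mul_apply, Matrix.one_apply, ← h j k]
  rfl

/-- signed permutation matrices -/
theorem perm_mem {d : ℕ} (w : Equiv.Perm (Fin (d + 1))) (ε : Fin (d + 1) → ℝ)
    (hε : ∀ i, ε i * ε i = 1) :
    (Matrix.of fun k j => if k = w j then ε j else 0) ∈
      Matrix.orthogonalGroup (Fin (d + 1)) ℝ := by
  apply mat_mem
  intro j k
  simp only [Matrix.of_apply, ite_mul, zero_mul, mul_ite, mul_zero]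
  rw [Finset.sum_ite_eq' Finset.univ (w k)]
  simp only [Finset.mem_univ, if_true]
  by_cases hjk : j = k
  · subst hjk
    simp [hε]
  · have : w k ≠ w j := fun h => hjk (w.injective h).symm
    simp [hjk, this]

theorem perm_rot {d : ℕ} (w : Equiv.Perm (Fin (d + 1))) (ε : Fin (d + 1) → ℝ)
    (hε : ∀ i, ε i * ε i = 1) (b : Fr d) (j : Fin (d + 1)) :
    (rotF ⟨_, perm_mem w ε hε⟩ b).1 j = ε j • b.1 (w j) := by
  simp only [rotF, Matrix.of_apply, ite_smul, zero_smul]
  rw [Finset.sum_ite_eq' Finset.univ (w j)]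
  simp

/-- the rotation in the plane of the first two coordinates -/
def R2 (d : ℕ) (c s : ℝ) : Matrix (Fin (d + 1)) (Fin (d + 1)) ℝ :=
  Matrix.of fun i j =>
    if j = 0 then c * (if i = 0 then 1 else 0) + s * (if i = 1 then 1 else 0)
    else if j = 1 then (-s) * (if i = 0 then 1 else 0) + c * (if i = 1 then 1 else 0)
    else if i = j then 1 else 0

theorem dd {d : ℕ} (a b : Fin (d + 1)) :
    ∑ i : Fin (d + 1), (if i = a then (1 : ℝ) else 0) * (if i = b then 1 else 0)
      = if a = b then 1 else 0 := by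
  simp only [ite_mul, one_mul, zero_mul]
  rw [Finset.sum_ite_eq' Finset.univ a]
  simp

theorem R2_mem {d : ℕ} (hd : 1 ≤ d) (c s : ℝ) (hcs : c ^ 2 + s ^ 2 = 1) :
    R2 d c s ∈ Matrix.orthogonalGroup (Fin (d + 1)) ℝ := by
  have h01 : (0 : Fin (d + 1)) ≠ 1 := by
    intro h
    have := congrArg Fin.val h
    simp at this
    omega
  apply mat_mem
  have key : ∀ (a b a' b' : ℝ) (u v u' v' : Fin (d + 1)),
      ∑ i : Fin (d + 1), (a * (if i = u then 1 else 0) + b * (if i = v then 1 else 0)) *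
        (a' * (if i = u' then 1 else 0) + b' * (if i = v' then 1 else 0))
      = a * a' * (if u = u' then 1 else 0) + a * b' * (if u = v' then 1 else 0) +
        b * a' * (if v = u' then 1 else 0) + b * b' * (if v = v' then 1 else 0) := by
    intro a b a' b' u v u' v'
    rw [← dd u u', ← dd u v', ← dd v u', ← dd v v', Finset.mul_sum, Finset.mul_sum,
      Finset.mul_sum, Finset.mul_sum, ← Finset.sum_add_distrib, ← Finset.sum_add_distrib,
      ← Finset.sum_add_distrib]
    apply Finset.sum_congr rfl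
    intro i _
    ring
  have hcol : ∀ j, ∃ (a b : ℝ) (u v : Fin (d + 1)), ∀ i, R2 d c s i j
      = a * (if i = u then 1 else 0) + b * (if i = v then 1 else 0) ∧
      ((j = 0 ∧ a = c ∧ b = s ∧ u = 0 ∧ v = 1) ∨ (j = 1 ∧ a = -s ∧ b = c ∧ u = 0 ∧ v = 1) ∨
        (j ≠ 0 ∧ j ≠ 1 ∧ a = 1 ∧ b = 0 ∧ u = j ∧ v = j)) := by
    intro j
    by_cases h0 : j = 0
    · exact ⟨c, s, 0, 1, fun i => ⟨by simp [R2, h0], Or.inl ⟨h0, rfl, rfl, rfl, rfl⟩⟩⟩
    · by_cases h1 : j = 1
      · exact ⟨-s, c, 0, 1, fun i => ⟨by simp [R2, h1, Ne.symm h01],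
          Or.inr (Or.inl ⟨h1, rfl, rfl, rfl, rfl⟩)⟩⟩
      · exact ⟨1, 0, j, j, fun i => ⟨by simp [R2, h0, h1],
          Or.inr (Or.inr ⟨h0, h1, rfl, rfl, rfl, rfl⟩)⟩⟩
  intro j k
  obtain ⟨a, b, u, v, h1⟩ := hcol j
  obtain ⟨a', b', u', v', h2⟩ := hcol k
  have e1 : ∀ i, R2 d c s i j = _ := fun i => (h1 i).1
  have e2 : ∀ i, R2 d c s i k = _ := fun i => (h2 i).1
  simp only [e1, e2]
  rw [key]
  rcases (h1 0).2 with ⟨rfl, rfl, rfl, rfl, rfl⟩ | ⟨rfl, rfl, rfl, rfl, rfl⟩ |
    ⟨hj0, hj1, rfl, rfl, rfl, rfl⟩ <;>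
  rcases (h2 0).2 with ⟨rfl, hh1, hh2, rfl, rfl⟩ | ⟨rfl, hh1, hh2, rfl, rfl⟩ |
    ⟨hk0, hk1, hh1, hh2, rfl, rfl⟩ <;>
  (try rw [hh1]) <;> (try rw [hh2]) <;>
  simp_all [Ne.symm] <;> nlinarith [hcs]


theorem R2_rot0 {d : ℕ} (hd : 1 ≤ d) (c s : ℝ) (hcs : c ^ 2 + s ^ 2 = 1) (b : Fr d) :
    (rotF ⟨_, R2_mem hd c s hcs⟩ b).1 0 = c • b.1 0 + s • b.1 1 := by
  simp only [rotF, R2, Matrix.of_apply, if_true, add_smul, mul_smul, ite_smul, one_smul, zero_smul,
    Finset.sum_add_distrib]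
  rw [← Finset.smul_sum, ← Finset.smul_sum]
  simp

theorem R2_rot1 {d : ℕ} (hd : 1 ≤ d) (c s : ℝ) (hcs : c ^ 2 + s ^ 2 = 1) (b : Fr d) :
    (rotF ⟨_, R2_mem hd c s hcs⟩ b).1 1 = (-s) • b.1 0 + c • b.1 1 := by
  have h01 : (1 : Fin (d + 1)) ≠ 0 := by
    intro h
    have := congrArg Fin.val h
    simp at this
    omega
  simp only [rotF, R2, Matrix.of_apply, if_neg h01, if_true, add_smul, mul_smul, ite_smul, one_smul,
    zero_smul, Finset.sum_add_distrib]
  rw [← Finset.smul_sum, ← Finset.smul_sum]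
  simp

/-! ## topology of the frames -/

theorem fr_compact0 (d : ℕ) : IsCompact {b : Fin (d + 1) → E d | Orthonormal ℝ b} := by
  apply Metric.isCompact_of_isClosed_isBounded
  · have h1 : {b : Fin (d + 1) → E d | Orthonormal ℝ b}
        = ⋂ i : Fin (d + 1), ⋂ j : Fin (d + 1),
          {b : Fin (d + 1) → E d | inner ℝ (b i) (b j) = if i = j then (1 : ℝ) else 0} := by
      ext b
      simp only [Set.mem_iInter, Set.mem_ofPred_eq, orthonormal_iff_ite]
    rw [h1]
    apply isClosed_iInter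
    intro i
    apply isClosed_iInter
    intro j
    apply isClosed_eq
    · exact Continuous.inner (continuous_apply i) (continuous_apply j)
    · exact continuous_const
  · apply (Metric.isBounded_closedBall (x := (0 : Fin (d + 1) → E d)) (r := 1)).subset
    intro b hb
    rw [mem_closedBall_zero_iff, pi_norm_le_iff_of_nonneg zero_le_one]
    intro i
    exact (hb.norm_eq_one i).le

theorem fr_compact (d : ℕ) : CompactSpace (Fr d) :=
  isCompact_iff_compactSpace.mp (fr_compact0 d)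

theorem cont_vec {d : ℕ} (i : Fin (d + 1)) : Continuous (fun b : Fr d => b.1 i) :=
  (continuous_apply i).comp continuous_subtype_val

theorem cont_vecF {d : ℕ} (i : Fin (d + 1)) : Continuous (fun b : Fr d => vecF b i) :=
  Continuous.subtype_mk (cont_vec i) _

theorem integ {d : ℕ} (μ : Measure (Fr d)) [IsProbabilityMeasure μ] (f : Fr d → ℝ)
    (hf : Continuous f) : Integrable f μ := by
  have := fr_compact d
  exact hf.integrable_of_hasCompactSupport (HasCompactSupport.of_compactSpace f)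

/-! ## quadratic forms -/

theorem quad_smul {d : ℕ} (g : Matrix (Fin (d + 1)) (Fin (d + 1)) ℝ) (q : ℝ) (v : E d) :
    quad g (q • v) = q ^ 2 * quad g v := by
  simp only [quad, PiLp.smul_apply, smul_eq_mul, Finset.mul_sum]
  apply Finset.sum_congr rfl
  intro i _
  apply Finset.sum_congr rfl
  intro j _
  ring

theorem cont_quad {d : ℕ} {Y : Type*} [TopologicalSpace Y]
    (g : Y → Matrix (Fin (d + 1)) (Fin (d + 1)) ℝ) (v : Y → E d) (hg : Continuous g)
    (hv : Continuous v) : Continuous (fun y => quad (g y) (v y)) := by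
  unfold quad
  apply continuous_finsetSum
  intro i _
  apply continuous_finsetSum
  intro j _
  have h1 : Continuous (fun y => g y i j) := hg.matrix_elem i j
  have h2 : ∀ k, Continuous (fun y => v y k) := fun k =>
    (EuclideanSpace.proj (𝕜 := ℝ) k).continuous.comp hv
  exact (h1.mul (h2 i)).mul (h2 j)

/-- the trace in an orthonormal frame -/
theorem trace_frame {d : ℕ} (G : Matrix (Fin (d + 1)) (Fin (d + 1)) ℝ) (b : Fr d) :
    ∑ i, quad G (b.1 i) = ∑ k, G k k := by
  set B : Matrix (Fin (d + 1)) (Fin (d + 1)) ℝ := Matrix.of fun k i => b.1 i k with hB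
  have h1 : B.transpose * B = 1 := by
    ext i j
    rw [Matrix.mul_apply, Matrix.one_apply]
    have h2 := (orthonormal_iff_ite.mp b.2) i j
    rw [← h2, PiLp.inner_apply]
    apply Finset.sum_congr rfl
    intro k _
    simp only [hB, Matrix.transpose_apply, Matrix.of_apply, RCLike.inner_apply, conj_trivial]
    ring
  have h3 : B * B.transpose = 1 := mul_eq_one_comm.mp h1
  have h4 : ∀ k l, ∑ i, b.1 i k * b.1 i l = if k = l then (1 : ℝ) else 0 := by
    intro k l
    have := congrFun (congrFun h3 k) l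
    rw [Matrix.mul_apply, Matrix.one_apply] at this
    exact this
  unfold quad
  rw [Finset.sum_comm]
  apply Finset.sum_congr rfl
  intro k _
  rw [Finset.sum_comm]
  have h5 : ∀ l, ∑ i, G k l * b.1 i k * b.1 i l = G k l * (if k = l then (1 : ℝ) else 0) := by
    intro l
    rw [← h4 k l, Finset.mul_sum]
    apply Finset.sum_congr rfl
    intro i _
    ring
  simp only [h5]
  simp

theorem trTan_frame {d : ℕ} (G : Matrix (Fin (d + 1)) (Fin (d + 1)) ℝ) (b : Fr d) :
    ∑ i ∈ Finset.univ.erase (0 : Fin (d + 1)), quad G (b.1 i) = trTan G (b.1 0) := by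
  have h1 := Finset.add_sum_erase Finset.univ (fun i => quad G (b.1 i)) (Finset.mem_univ 0)
  rw [trace_frame] at h1
  unfold trTan
  rw [← h1]
  ring

/-! ## the inequality -/

theorem sqrt_half (A B : ℝ) (h1 : 0 ≤ A + B) (h2 : 0 ≤ A - B) :
    (√(A + B) + √(A - B)) / 2 ≤ √A := by
  apply Real.le_sqrt_of_sq_le
  have e1 := Real.sq_sqrt h1
  have e2 := Real.sq_sqrt h2
  nlinarith [sq_nonneg (√(A + B) - √(A - B))]

theorem t_AVG : T_AVG := by
  intro d hd μ hμ a β g ha hβ hg ha1 hnn c s p q hcs X hX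
  have := hμ.prob
  have h01 : (1 : Fin (d + 1)) ≠ 0 := by
    intro h
    have := congrArg Fin.val h
    simp at this
    omega
  -- the function of the frame
  set Ψ : Fr d → ℝ := fun b => √(a (vecF b 0) * p ^ 2 +
    2 * p * inner ℝ (β (vecF b 0)) (q • b.1 1) + quad (g (vecF b 0)) (q • b.1 1)) with hΨ
  have cΨ : Continuous Ψ := by
    apply Real.continuous_sqrt.comp
    apply Continuous.add
    · apply Continuous.add
      · exact (ha.comp (cont_vecF 0)).mul continuous_const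
      · exact continuous_const.mul
          (Continuous.inner (hβ.comp (cont_vecF 0)) ((cont_vec 1).const_smul q))
    · exact cont_quad _ _ (hg.comp (cont_vecF 0)) ((cont_vec 1).const_smul q)
  -- step 1: rotation
  have st1 : ∫ b, √(a (X b) * p ^ 2 + 2 * p * inner ℝ (β (X b)) (q • ((-s) • b.1 0 + c • b.1 1)) +
        quad (g (X b)) (q • ((-s) • b.1 0 + c • b.1 1))) ∂μ = ∫ b, Ψ b ∂μ := by
    rw [← hμ.inv ⟨_, R2_mem hd c s hcs⟩ Ψ cΨ]
    apply integral_congr_ae
    apply Filter.Eventually.of_forall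
    intro b
    have e1 : vecF (rotF ⟨_, R2_mem hd c s hcs⟩ b) 0 = X b := by
      apply Subtype.ext
      rw [hX b]
      exact R2_rot0 hd c s hcs b
    simp only [hΨ, e1, R2_rot1 hd c s hcs b]
  rw [st1]
  -- step 2: sign change
  set ε : Fin (d + 1) → ℝ := fun i => if i = 1 then -1 else 1 with hε
  have hε2 : ∀ i, ε i * ε i = 1 := by
    intro i
    simp only [hε]
    split_ifs <;> norm_num
  set Ψ' : Fr d → ℝ := fun b => Ψ (rotF ⟨_, perm_mem (Equiv.refl _) ε hε2⟩ b) with hΨ'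
  have eΨ' : ∀ b, Ψ' b = √((a (vecF b 0) * p ^ 2 + quad (g (vecF b 0)) (q • b.1 1)) -
      2 * p * inner ℝ (β (vecF b 0)) (q • b.1 1)) := by
    intro b
    have e0 : vecF (rotF ⟨_, perm_mem (Equiv.refl _) ε hε2⟩ b) 0 = vecF b 0 := by
      apply Subtype.ext
      have := perm_rot (Equiv.refl _) ε hε2 b 0
      simp only [vecF]
      rw [this]
      simp [hε, Ne.symm h01]
    have e1 : (rotF ⟨_, perm_mem (Equiv.refl _) ε hε2⟩ b).1 1 = - b.1 1 := by
      rw [perm_rot (Equiv.refl _) ε hε2]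
      simp [hε]
    simp only [hΨ', hΨ, e0, e1]
    congr 1
    rw [smul_neg, inner_neg_right]
    have e2 : quad (g (vecF b 0)) (-(q • b.1 1)) = quad (g (vecF b 0)) (q • b.1 1) := by
      have := quad_smul (g (vecF b 0)) (-1) (q • b.1 1)
      rw [neg_one_smul] at this
      rw [this]
      ring
    rw [e2]
    ring
  have cΨ' : Continuous Ψ' := by
    have : Ψ' = fun b => √((a (vecF b 0) * p ^ 2 + quad (g (vecF b 0)) (q • b.1 1)) -
      2 * p * inner ℝ (β (vecF b 0)) (q • b.1 1)) := funext eΨ'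
    rw [this]
    apply Real.continuous_sqrt.comp
    apply Continuous.sub
    · apply Continuous.add
      · exact (ha.comp (cont_vecF 0)).mul continuous_const
      · exact cont_quad _ _ (hg.comp (cont_vecF 0)) ((cont_vec 1).const_smul q)
    · exact continuous_const.mul
        (Continuous.inner (hβ.comp (cont_vecF 0)) ((cont_vec 1).const_smul q))
  have st2 : ∫ b, Ψ' b ∂μ = ∫ b, Ψ b ∂μ := hμ.inv ⟨_, perm_mem (Equiv.refl _) ε hε2⟩ Ψ cΨ
  -- the functions for the other vectors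
  set Φ : Fin (d + 1) → Fr d → ℝ := fun i b =>
    √(p ^ 2 + q ^ 2 * quad (g (vecF b 0)) (b.1 i)) with hΦ
  have cΦ : ∀ i, Continuous (Φ i) := by
    intro i
    apply Real.continuous_sqrt.comp
    exact continuous_const.add (continuous_const.mul
      (cont_quad _ _ (hg.comp (cont_vecF 0)) (cont_vec i)))
  have orth : ∀ (b : Fr d) (i : Fin (d + 1)), i ≠ 0 → inner ℝ ((vecF b 0 : Sph d) : E d) (b.1 i) = 0 := by
    intro b i hi
    have := (orthonormal_iff_ite.mp b.2) 0 i
    rw [if_neg (Ne.symm hi)] at this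
    exact this
  have qnn : ∀ (b : Fr d) (i : Fin (d + 1)), i ≠ 0 → 0 ≤ quad (g (vecF b 0)) (b.1 i) := by
    intro b i hi
    have := hnn (vecF b 0) 0 (b.1 i) (orth b i hi)
    simpa using this
  have st3 : ∫ b, Ψ b ∂μ ≤ ∫ b, Φ 1 b ∂μ := by
    have e1 : ∫ b, Ψ b ∂μ = ∫ b, (Ψ b + Ψ' b) / 2 ∂μ := by
      rw [integral_div, integral_add (integ μ _ cΨ) (integ μ _ cΨ'), st2]
      ring
    rw [e1]
    apply integral_mono (integ μ _ ((cΨ.add cΨ').div_const 2)) (integ μ _ (cΦ 1))
    intro b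
    change (Ψ b + Ψ' b) / 2 ≤ Φ 1 b
    rw [eΨ' b]
    set A : ℝ := a (vecF b 0) * p ^ 2 + quad (g (vecF b 0)) (q • b.1 1) with hA
    set B : ℝ := 2 * p * inner ℝ (β (vecF b 0)) (q • b.1 1) with hB
    have e2 : Ψ b = √(A + B) := by
      simp only [hΨ, hA, hB]
      congr 1
      ring
    rw [e2]
    have o1 : inner ℝ ((vecF b 0 : Sph d) : E d) (q • b.1 1) = 0 := by
      rw [inner_smul_right, orth b 1 h01, mul_zero]
    have n1 := hnn (vecF b 0) p (q • b.1 1) o1
    have n2 := hnn (vecF b 0) (-p) (q • b.1 1) o1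
    refine (sqrt_half A B (by linarith) ?_).trans ?_
    · have : A - B = a (vecF b 0) * (-p) ^ 2 + 2 * (-p) * inner ℝ (β (vecF b 0)) (q • b.1 1)
          + quad (g (vecF b 0)) (q • b.1 1) := by
        rw [hA, hB]
        ring
      rw [this]
      exact n2
    · apply Real.sqrt_le_sqrt
      rw [hA, quad_smul]
      have := ha1 (vecF b 0)
      nlinarith [sq_nonneg p]
  refine st3.trans ?_
  -- step 3: permutations
  have st4 : ∀ i : Fin (d + 1), i ≠ 0 → ∫ b, Φ i b ∂μ = ∫ b, Φ 1 b ∂μ := by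
    intro i hi
    have hε1 : ∀ j : Fin (d + 1), (fun _ : Fin (d + 1) => (1 : ℝ)) j * (fun _ => (1 : ℝ)) j = 1 := by
      intro j
      norm_num
    rw [← hμ.inv ⟨_, perm_mem (Equiv.swap 1 i) (fun _ => 1) hε1⟩ (Φ 1) (cΦ 1)]
    apply integral_congr_ae
    apply Filter.Eventually.of_forall
    intro b
    have e0 : vecF (rotF ⟨_, perm_mem (Equiv.swap 1 i) (fun _ => 1) hε1⟩ b) 0 = vecF b 0 := by
      apply Subtype.ext
      have := perm_rot (Equiv.swap 1 i) (fun _ => 1) hε1 b 0
      simp only [vecF]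
      rw [this, Equiv.swap_apply_of_ne_of_ne (Ne.symm h01) (Ne.symm hi), one_smul]
    have e1 : (rotF ⟨_, perm_mem (Equiv.swap 1 i) (fun _ => 1) hε1⟩ b).1 1 = b.1 i := by
      rw [perm_rot (Equiv.swap 1 i) (fun _ => 1) hε1, Equiv.swap_apply_left, one_smul]
    simp only [hΦ, e0, e1]
  set s0 : Finset (Fin (d + 1)) := Finset.univ.erase 0 with hs0
  have hcard : (s0.card : ℝ) = d := by
    rw [hs0, Finset.card_erase_of_mem (Finset.mem_univ _), Finset.card_univ, Fintype.card_fin]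
    simp
  have hd0 : (0 : ℝ) < d := by exact_mod_cast hd
  have st5 : (d : ℝ) * ∫ b, Φ 1 b ∂μ = ∫ b, ∑ i ∈ s0, Φ i b ∂μ := by
    rw [integral_finsetSum _ (fun i _ => integ μ _ (cΦ i)),
      Finset.sum_congr rfl (fun i hi => st4 i (Finset.ne_of_mem_erase hi)), Finset.sum_const,
      nsmul_eq_mul, hcard]
  have st6 : ∫ b, ∑ i ∈ s0, Φ i b ∂μ
      ≤ ∫ b, (d : ℝ) * √(p ^ 2 + q ^ 2 * (trTan (g (vecF b 0)) (vecF b 0) / d)) ∂μ := by
    have cT : Continuous (fun b : Fr d => trTan (g (vecF b 0)) (vecF b 0)) := by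
      unfold trTan
      apply Continuous.sub
      · apply continuous_finsetSum
        intro i _
        exact (hg.comp (cont_vecF 0)).matrix_elem i i
      · exact cont_quad _ _ (hg.comp (cont_vecF 0)) (cont_vec 0)
    apply integral_mono (integ μ _ (continuous_finsetSum _ (fun i _ => cΦ i)))
    · apply integ
      apply continuous_const.mul
      apply Real.continuous_sqrt.comp
      exact continuous_const.add (continuous_const.mul (cT.div_const _))
    intro b
    change ∑ i ∈ s0, Φ i b ≤ (d : ℝ) * √(p ^ 2 + q ^ 2 * (trTan (g (vecF b 0)) (vecF b 0) / d))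
    have zz : ∀ i ∈ s0, 0 ≤ p ^ 2 + q ^ 2 * quad (g (vecF b 0)) (b.1 i) := by
      intro i hi
      have := qnn b i (Finset.ne_of_mem_erase hi)
      positivity
    have cs : (∑ i ∈ s0, Φ i b) ^ 2 ≤ (d : ℝ) * ∑ i ∈ s0, (p ^ 2 + q ^ 2 * quad (g (vecF b 0)) (b.1 i)) := by
      have h1 := sq_sum_le_card_mul_sum_sq (s := s0) (f := fun i => Φ i b)
      rw [hcard] at h1
      refine h1.trans (le_of_eq ?_)
      congr 1
      apply Finset.sum_congr rfl
      intro i hi
      exact Real.sq_sqrt (zz i hi)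
    have sumz : ∑ i ∈ s0, (p ^ 2 + q ^ 2 * quad (g (vecF b 0)) (b.1 i))
        = d * (p ^ 2 + q ^ 2 * (trTan (g (vecF b 0)) (vecF b 0) / d)) := by
      rw [Finset.sum_add_distrib, Finset.sum_const, nsmul_eq_mul, hcard, ← Finset.mul_sum, hs0,
        trTan_frame]
      change _ = (d : ℝ) * (p ^ 2 + q ^ 2 * (trTan (g (vecF b 0)) (b.1 0) / d))
      field_simp
    rw [sumz] at cs
    have h2 : (d : ℝ) * √(p ^ 2 + q ^ 2 * (trTan (g (vecF b 0)) (vecF b 0) / d))
        = √((d : ℝ) * (d * (p ^ 2 + q ^ 2 * (trTan (g (vecF b 0)) (vecF b 0) / d)))) := by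
      rw [← mul_assoc, Real.sqrt_mul (by positivity), Real.sqrt_mul_self hd0.le]
    rw [h2]
    exact Real.le_sqrt_of_sq_le cs
  rw [integral_const_mul] at st6
  rw [← st5] at st6
  exact le_of_mul_le_mul_left st6 hd0

end Pool.Agent.Y249.HC
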